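import Pool.Agent.Helper76.Q5P7.StC

/-!
# Levels `5 * 7^n` (MP_1d384c_nt), module BAL: transport to the balanced form
-/

set_option autoImplicit false

namespace Pool.Agent.Helper85.Q5P7

open Pool.Agent.Helper76.Q5P7 Pool.Agent.Helper28.T5
open Pool.Agent.Helper76.S7 (Pt trp ng dR Iv Kl Dv Ty anti7 inv1 inv7 S7DimK S7Split)
open Pool.Agent.Helper14.CV (Homog EqC act)

private theorem fne_Bal (k : ℕ) : (7 : ℤ) ^ k ≠ 0 := pow_ne_zero _ (by norm_num)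

private theorem ne_of_Bal {k : ℕ} {p q : ℤ} (h : p ≠ 0 ∨ q ≠ 0) : p ≠ 0 ∨ (7 : ℤ) ^ k * q ≠ 0 := by
  rcases h with h | h
  · exact Or.inl h
  · exact Or.inr (mul_ne_zero (fne_Bal k) h)

private theorem homogH_Bal {k : ℕ} {G : ℤ → ℤ → ℂ} (hG : Homog G) : Homog (act 1 0 0 (7 ^ k) G) := by
  intro l p q hl hpq
  simp only [act]
  have h := hG l p (7 ^ k * q) hl (ne_of_Bal hpq)
  rw [show 1 * (l * p) + 0 * (l * q) = l * p by ring,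
    show 0 * (l * p) + 7 ^ k * (l * q) = l * (7 ^ k * q) by ring, h,
    show 1 * p + 0 * q = p by ring, show 0 * p + 7 ^ k * q = 7 ^ k * q by ring]

private theorem symH_Bal {k s s' : ℕ} {G : ℤ → ℤ → ℂ} (hs : s' ≤ k + s) (hG : SymH 7 0 s' G) :
    SymH 7 k s (act 1 0 0 (7 ^ k) G) := by
  have hdet : (1 : ℤ) * 7 ^ k - 0 * 0 ≠ 0 := by
    rw [one_mul, mul_zero, sub_zero]
    exact fne_Bal k
  refine hG.act hdet ?_
  intro a b c d hd hb hc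
  rw [Nat.cast_ofNat] at hb hc
  obtain ⟨b', rfl⟩ := hb
  obtain ⟨c', rfl⟩ := hc
  have hty : HTy a b' (7 ^ k * (7 ^ s * c')) d := by
    rcases hd with ⟨h1, h2⟩ | ⟨h1, h2, h3, h4⟩
    · exact Or.inl ⟨by linear_combination h1, Dvd.dvd.mul_left h2 _⟩
    · exact Or.inr ⟨by linear_combination h1, h2, Dvd.dvd.mul_left h3 _, h4⟩
  refine ⟨a, b', 7 ^ k * (7 ^ s * c'), d, hty, ?_, ?_, ?_, ?_, ?_, ?_⟩
  · rw [pow_zero]
    exact one_dvd _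
  · rw [Nat.cast_ofNat]
    have h1 : (7 : ℤ) ^ s' ∣ 7 ^ (k + s) := pow_dvd_pow 7 hs
    have h2 : (7 : ℤ) ^ k * (7 ^ s * c') = 7 ^ (k + s) * c' := by rw [pow_add]; ring
    rw [h2]
    exact Dvd.dvd.mul_right h1 c'
  · ring
  · ring
  · ring
  · ring

/-- The general transport of a relation. -/
private theorem trans_Bal {k : ℕ} {H' K X : ℤ → ℤ → ℂ}
    (hK : ∀ p q : ℤ, (p ≠ 0 ∨ q ≠ 0) → H' p q = X p (7 ^ k * q))
    (h : EqC X K) : EqC H' (act 1 0 0 (7 ^ k) K) := by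
  obtain ⟨C, hC⟩ := h
  refine ⟨C, ?_⟩
  intro p q hpq
  rw [hK p q hpq, hC p (7 ^ k * q) (ne_of_Bal hpq)]
  simp only [act]
  rw [show 1 * p + 0 * q = p by ring, show 0 * p + 7 ^ k * q = 7 ^ k * q by ring]

private theorem aux1_Bal {j : ℕ} {G : ℤ → ℤ → ℂ} (hG : Homog G) (t : ℤ) {p q : ℤ}
    (hpq : p ≠ 0 ∨ q ≠ 0) :
    act 1 (t * 7 ^ j) 0 1 (act 1 0 0 (7 ^ (j + 1)) G) p q = act 7 t 0 7 G p (7 ^ (j + 1) * q) := by
  simp only [act]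
  have hne : p + t * 7 ^ j * q ≠ 0 ∨ 7 ^ (j + 1) * q ≠ 0 := by
    by_cases hq : q = 0
    · left
      rw [hq, mul_zero, add_zero]
      rcases hpq with h | h
      · exact h
      · exact absurd hq h
    · exact Or.inr (mul_ne_zero (fne_Bal _) hq)
  have h1 := hG 7 (p + t * 7 ^ j * q) (7 ^ (j + 1) * q) (by norm_num) hne
  rw [show 1 * (1 * p + t * 7 ^ j * q) + 0 * (0 * p + 1 * q) = p + t * 7 ^ j * q by ring,
    show 0 * (1 * p + t * 7 ^ j * q) + 7 ^ (j + 1) * (0 * p + 1 * q) = 7 ^ (j + 1) * q by ring,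
    show 7 * p + t * (7 ^ (j + 1) * q) = 7 * (p + t * 7 ^ j * q) by rw [pow_succ]; ring,
    show 0 * p + 7 * (7 ^ (j + 1) * q) = 7 * (7 ^ (j + 1) * q) by ring, h1]

private theorem sum_app (n : ℕ) (F : ℕ → ℤ → ℤ → ℂ) (p q : ℤ) :
    (∑ i ∈ Finset.range n, F i) p q = ∑ i ∈ Finset.range n, F i p q := by
  rw [Finset.sum_apply, Finset.sum_apply]

private theorem rel1_Bal {k : ℕ} (hk : 1 ≤ k) {G : ℤ → ℤ → ℂ} (hG : Homog G)
    (h : EqC (∑ i ∈ Finset.range 7, act ((7 : ℕ) : ℤ) i 0 ((7 : ℕ) : ℤ) G) 0) :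
    EqC (∑ i ∈ Finset.range 7, act 1 (i * 7 ^ (k - 1)) 0 1 (act 1 0 0 (7 ^ k) G)) 0 := by
  obtain ⟨j, rfl⟩ : ∃ j, k = j + 1 := ⟨k - 1, by omega⟩
  refine trans_Bal (k := j + 1) ?_ h
  intro p q hpq
  rw [Nat.add_sub_cancel, sum_app, sum_app]
  refine Finset.sum_congr rfl fun i _ => ?_
  rw [aux1_Bal hG _ hpq, Nat.cast_ofNat]

private theorem aux2_Bal {k j l : ℕ} (hj : k + j = l) {G : ℤ → ℤ → ℂ} (t : ℤ) (p q : ℤ) :
    act 1 0 (t * 7 ^ j) 1 (act 1 0 0 (7 ^ k) G) p q = act 1 0 (t * 7 ^ l) 1 G p (7 ^ k * q) := by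
  simp only [act]
  rw [← hj]
  rw [show 1 * (1 * p + 0 * q) + 0 * (t * 7 ^ j * p + 1 * q) = 1 * p + 0 * (7 ^ k * q) by ring,
    show 0 * (1 * p + 0 * q) + 7 ^ k * (t * 7 ^ j * p + 1 * q)
      = t * 7 ^ (k + j) * p + 1 * (7 ^ k * q) by rw [pow_add]; ring]

private theorem rel2_Bal {k j l : ℕ} (hj : k + j = l) {G : ℤ → ℤ → ℂ}
    (h : EqC (∑ i ∈ Finset.range 7, act 1 0 (5 * i * ((7 : ℕ) : ℤ) ^ l) 1 G) 0) :
    EqC (∑ i ∈ Finset.range 7, act 1 0 (5 * i * 7 ^ j) 1 (act 1 0 0 (7 ^ k) G)) 0 := by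
  refine trans_Bal (k := k) ?_ h
  intro p q _
  rw [sum_app, sum_app]
  refine Finset.sum_congr rfl fun i _ => ?_
  rw [aux2_Bal hj, Nat.cast_ofNat]

private theorem rel3_Bal {k l : ℕ} {e : ℤ} (he : e ≠ 0) (hl : 5 * (7 : ℤ) ^ l = 7 ^ k * (7 ^ k * e))
    {G : ℤ → ℤ → ℂ} (hG : Homog G) (h : EqC (act 0 (-1) (5 * ((7 : ℕ) : ℤ) ^ l) 0 G) (-G)) :
    EqC (act 0 (-1) e 0 (act 1 0 0 (7 ^ k) G)) (-(act 1 0 0 (7 ^ k) G)) := by
  rw [Nat.cast_ofNat] at h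
  refine trans_Bal (k := k) ?_ h
  intro p q hpq
  simp only [act]
  have hne : -q ≠ 0 ∨ 7 ^ k * (e * p) ≠ 0 := by
    rcases hpq with h | h
    · exact Or.inr (mul_ne_zero (fne_Bal _) (mul_ne_zero he h))
    · exact Or.inl (neg_ne_zero.2 h)
  have h1 := hG (7 ^ k) (-q) (7 ^ k * (e * p)) (fne_Bal k) hne
  rw [show 1 * (0 * p + -1 * q) + 0 * (e * p + 0 * q) = -q by ring,
    show 0 * (0 * p + -1 * q) + 7 ^ k * (e * p + 0 * q) = 7 ^ k * (e * p) by ring,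
    show 0 * p + -1 * (7 ^ k * q) = 7 ^ k * (-q) by ring,
    show 5 * 7 ^ l * p + 0 * (7 ^ k * q) = 7 ^ k * (7 ^ k * (e * p)) by rw [hl]; ring, h1]

private theorem rel4_Bal {k : ℕ} {G : ℤ → ℤ → ℂ} (h : EqC (act (-1) 0 0 1 G) G) :
    EqC (act (-1) 0 0 1 (act 1 0 0 (7 ^ k) G)) (act 1 0 0 (7 ^ k) G) := by
  refine trans_Bal (k := k) ?_ h
  intro p q _
  simp only [act]
  congr 1 <;> ring

theorem hBal : HBal := by
  intro k G hk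
  refine ⟨?_, ?_, ?_⟩
  · rintro ⟨h1, h2, h3, h4, h5⟩
    exact ⟨symH_Bal (by omega) h1, rel1_Bal hk h1.1 h2, rel2_Bal (by omega) h3,
      rel3_Bal (by norm_num) (by rw [two_mul k, pow_add]; ring) h1.1 h4, rel4_Bal h5⟩
  · rintro ⟨h1, h2, h3, h4, h5⟩
    refine ⟨symH_Bal (by omega) h1, rel1_Bal hk h1.1 h2, rel2_Bal (by omega) h3, ?_, rel4_Bal h5⟩
    exact rel3_Bal (by norm_num) (by rw [two_mul k, pow_succ, pow_add]; ring) h1.1 h4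
  · rintro hG ⟨C, hC⟩
    refine ⟨C, ?_⟩
    intro p q hpq
    have hne : 7 ^ k * p ≠ 0 ∨ q ≠ 0 := by
      rcases hpq with h | h
      · exact Or.inl (mul_ne_zero (fne_Bal k) h)
      · exact Or.inr h
    have h1 := hC (7 ^ k * p) q hne
    simp only [act] at h1
    rw [show 1 * (7 ^ k * p) + 0 * q = 7 ^ k * p by ring,
      show 0 * (7 ^ k * p) + 7 ^ k * q = 7 ^ k * q by ring, hG (7 ^ k) p q (fne_Bal k) hpq] at h1
    exact h1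

end Pool.Agent.Helper85.Q5P7
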